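import Pool.Agent.Mg.F942673a.Ga73294

set_option autoImplicit false

namespace Pool.Agent.Results.MP_942673_co.EvenAut

open Pool.Agent.MP_942673_co

/-- `G` has an extended-affine automorphism of even order: an affine bijection `σ` of `V × V`
of even order that maps the graph of `G` onto itself and whose linear part maps `0 × V` into
itself. -/
def HasEvenAut {V : Type} [AddCommGroup V] [Module (ZMod 2) V] (G : V → V) : Prop :=
  ∃ σ : (V × V) ≃ᵃ[ZMod 2] (V × V), (∀ y : V, (σ.linear (0, y)).1 = 0) ∧
    σ '' {p | p.2 = G p.1} = {p | p.2 = G p.1} ∧ Even (orderOf σ)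

/-- An APN function that is CCZ-equivalent to a function `G` with an extended-affine
automorphism of even order has algebraic degree less than `n`. -/
theorem result :
    ∀ n : ℕ, 5 ≤ n →
      ∀ G F : (Fin n → ZMod 2) → (Fin n → ZMod 2), HasEvenAut G → CCZ G F →
        (∀ a : Fin n → ZMod 2, a ≠ 0 → ∀ b : Fin n → ZMod 2,
          (Finset.univ.filter (fun x : Fin n → ZMod 2 => F (x + a) + F x = b)).card ≤ 2) →
        ¬ ∃ i : Fin n, ∃ P : MvPolynomial (Fin n) (ZMod 2),
            (∀ j : Fin n, MvPolynomial.degreeOf j P ≤ 1) ∧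
            (∀ x : Fin n → ZMod 2, MvPolynomial.eval x P = F x i) ∧
            P.totalDegree = n := by
  rintro n hn G F ⟨σ, hV, hS, hev⟩ hF hA
  have h0 : ∑ x, F x = 0 :=
    sum_ccz (by omega) hF (sum_eq_zero_even hn (sid_ccz hF (sid_of_apn hA)) σ hV hS hev)
  rintro ⟨i, P, h1, h2, h3⟩
  refine sum_eval_ne_zero (by omega) h1 h3 ?_
  simp only [h2]
  rw [← Finset.sum_apply, h0]
  rfl

end Pool.Agent.Results.MP_942673_co.EvenAut
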