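import Pool.Agent.MP_942673_co.Nb.Apn

set_option autoImplicit false

namespace Pool.Agent.Results.MP_942673_co.Neighbours

/-- Every APN function on `F₂ⁿ` has at most `1000 · 2^(3n/2)` APN functions at Hamming
distance one. -/
theorem result :
    ∀ (n : ℕ) (F : (Fin n → ZMod 2) → (Fin n → ZMod 2)),
      (∀ a : Fin n → ZMod 2, a ≠ 0 → ∀ b : Fin n → ZMod 2,
        (Finset.univ.filter (fun x : Fin n → ZMod 2 => F (x + a) + F x = b)).card ≤ 2) →
      {G : (Fin n → ZMod 2) → (Fin n → ZMod 2) |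
        (∀ a : Fin n → ZMod 2, a ≠ 0 → ∀ b : Fin n → ZMod 2,
          (Finset.univ.filter (fun x : Fin n → ZMod 2 => G (x + a) + G x = b)).card ≤ 2) ∧
        hammingDist F G = 1}.ncard ^ 2 ≤ 10 ^ 6 * 8 ^ n :=
  fun _ F hF => Pool.Agent.MP_942673_co.Nb.neighbours F hF

end Pool.Agent.Results.MP_942673_co.Neighbours
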