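import Pool.Agent.MP_942673_co.Pw.Any

set_option autoImplicit false

namespace Pool.Agent.Results.MP_942673_co.Power

/-- An APN function on the field with `2 ^ n` elements that differs from a power map differs
from it at no fewer than `1 + 2 ^ n / 100` points. -/
theorem result :
    ∀ n : ℕ, 4 ≤ n → ∀ (K : Type) [Field K] [Fintype K] [DecidableEq K],
      Fintype.card K = 2 ^ n → ∀ (d : ℕ) (F : K → K),
        (∀ a : K, a ≠ 0 → ∀ b : K,
          (Finset.univ.filter (fun x : K => F (x + a) + F x = b)).card ≤ 2) →
        F ≠ (fun x => x ^ d) →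
        2 ^ n + 100 ≤ 100 * hammingDist F (fun x => x ^ d) := by
  intro n hn K _ _ _ hK d F hF hne
  have : CharP K 2 := charP_of_card_eq_prime_pow hK
  rw [← hK]
  refine Pool.Agent.MP_942673_co.Pw.any_dist ?_ ?_ F hF hne
  · rw [hK]
    exact Nat.pow_le_pow_right (n := 2) (by norm_num) hn
  · rw [hK]
    rcases Nat.lt_or_ge n 7 with h | h
    · exact Or.inl ((Nat.pow_le_pow_right (by norm_num) (Nat.le_of_lt_succ h)).trans
        (by norm_num))
    · exact Or.inr (Nat.pow_le_pow_right (n := 2) (by norm_num) h)

end Pool.Agent.Results.MP_942673_co.Power
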