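import Pool.Agent.Mg.F942673.G26f40a

set_option autoImplicit false

namespace Pool.Agent.Results.MP_942673_co.Switching

open Pool.Agent.MP_942673_co

/-- An APN function that is CCZ-equivalent to a switching neighbour `G + f·s` of a function `G`
in the CCZ-class of a plateaued function has algebraic degree less than `n`. -/
theorem result :
    ∀ n : ℕ, 3 ≤ n →
      ∀ (H G F : (Fin n → ZMod 2) → (Fin n → ZMod 2)) (s : Fin n → ZMod 2)
        (f : (Fin n → ZMod 2) → ZMod 2),
        Plateaued H → CCZ H G → CCZ (fun x => G x + f x • s) F →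
        (∀ a : Fin n → ZMod 2, a ≠ 0 → ∀ b : Fin n → ZMod 2,
          (Finset.univ.filter (fun x : Fin n → ZMod 2 => F (x + a) + F x = b)).card ≤ 2) →
        ¬ ∃ i : Fin n, ∃ P : MvPolynomial (Fin n) (ZMod 2),
            (∀ j : Fin n, MvPolynomial.degreeOf j P ≤ 1) ∧
            (∀ x : Fin n → ZMod 2, MvPolynomial.eval x P = F x i) ∧
            P.totalDegree = n := by
  intro n hn H G F s f hH hG hF hA
  have h0 : ∑ x, F x = 0 := by
    by_cases hs : s = 0
    · subst hs
      have h1 : (1 : Fin n → ZMod 2) ≠ 0 := fun h => one_ne_zero (congrFun h ⟨0, by omega⟩)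
      refine sum_eq_zero_switch hn h1 (f := fun _ => 0) hH hG ?_ hA
      simpa using hF
    · exact sum_eq_zero_switch hn hs hH hG hF hA
  rintro ⟨i, P, h1, h2, h3⟩
  refine sum_eval_ne_zero (by omega) h1 h3 ?_
  simp only [h2]
  rw [← Finset.sum_apply, h0]
  rfl

end Pool.Agent.Results.MP_942673_co.Switching
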